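import Pool.Agent.Helper81.MH.Goals

/-!
# Packet MH GEN: there are types outside any countable set, from some level on
-/

set_option autoImplicit false

namespace Pool.Agent.Helper32.MH.GEN

open Set Cardinal Filter
open Pool.Agent.Helper81.SB Pool.Agent.Helper81.MH

/-- The cell of a finite condition. -/
def cell (x : W → Set ℕ) (z : Set ℕ) (p : Finset (W × Bool)) : Set ℕ :=
  {κ | κ ∈ z ∧ ∀ w ∈ p, (κ ∈ x w.1 ↔ w.2 = true)}

theorem cell_insert {x : W → Set ℕ} {z : Set ℕ} {p : Finset (W × Bool)} {w : W}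
    (h1 : (cell x z p ∩ x w).Infinite) (h2 : (cell x z p \ x w).Infinite) [DecidableEq (W × Bool)]
    (v : Bool) : (cell x z (insert (w, v) p)).Infinite := by
  cases v with
  | true =>
    refine h1.mono ?_
    rintro κ ⟨⟨hκ, hp⟩, hw⟩
    refine ⟨hκ, fun u hu => ?_⟩
    rcases Finset.mem_insert.1 hu with rfl | hu
    · exact ⟨fun _ => rfl, fun _ => hw⟩
    · exact hp u hu
  | false =>
    refine h2.mono ?_
    rintro κ ⟨⟨hκ, hp⟩, hw⟩
    refine ⟨hκ, fun u hu => ?_⟩
    rcases Finset.mem_insert.1 hu with rfl | hu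
    · exact ⟨fun h => absurd h hw, fun h => by simp at h⟩
    · exact hp u hu

theorem countable_conds (β : W) : {p : Finset (W × Bool) | ∀ w ∈ p, w.1 ≤ β}.Countable := by
  have h0 : (Iic β : Set W).Countable := by
    have : (Iic β : Set W) = insert β (Iio β) := by
      ext x
      simp [le_iff_eq_or_lt]
    rw [this]
    exact (W_Iio β).insert β
  have h1 : Countable (Iic β : Set W) := h0.to_subtype
  have h2 : ({w : W × Bool | w.1 ≤ β} : Set (W × Bool)).Countable := by
    have : ({w : W × Bool | w.1 ≤ β} : Set (W × Bool)) = (Iic β) ×ˢ (Set.univ : Set Bool) := by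
      ext w
      simp
    rw [this]
    exact h0.prod (Set.countable_univ)
  have h3 : Countable {w : W × Bool // w.1 ≤ β} := h2.to_subtype
  have h4 : {p : Finset (W × Bool) | ∀ w ∈ p, w.1 ≤ β} ⊆
      Set.range (fun q : Finset {w : W × Bool // w.1 ≤ β} =>
        q.map (Function.Embedding.subtype _)) := by
    intro p hp
    refine ⟨p.subtype (fun w => w.1 ≤ β), ?_⟩
    exact Finset.subtype_map_of_mem (fun w hw => hp w hw)
  exact (Set.countable_range _).mono h4

theorem goal_GEN : Goal_GEN := by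
  classical
  intro x e hE hS z hz
  have hξ : ∀ p : Finset (W × Bool), ∃ ξ : W, (cell x z p).Infinite →
      (cell x z p ∩ x ξ).Infinite ∧ (cell x z p \ x ξ).Infinite := by
    intro p
    by_cases h : (cell x z p).Infinite
    · obtain ⟨ξ, h1, h2⟩ := hS _ h
      exact ⟨ξ, fun _ => ⟨h1, h2⟩⟩
    · exact ⟨Classical.arbitrary W, fun h' => absurd h' h⟩
  choose ξ hξ using hξ
  have hG : ∀ β : W, ∃ γ : W, ∀ p : Finset (W × Bool), (∀ w ∈ p, w.1 ≤ β) → ξ p < γ := by
    intro β
    obtain ⟨γ, hγ⟩ := W_bdd (ξ '' {p : Finset (W × Bool) | ∀ w ∈ p, w.1 ≤ β})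
      ((countable_conds β).image ξ)
    exact ⟨γ, fun p hp => hγ _ ⟨p, hp, rfl⟩⟩
  choose G hG using hG
  obtain ⟨c₀, hc₀, hcl⟩ := exists_closed G (Classical.arbitrary W)
  have hξlt : ∀ p : Finset (W × Bool), (∀ w ∈ p, w.1 < c₀) → ξ p < c₀ := by
    intro p hp
    have hβ : ∃ β < c₀, ∀ w ∈ p, w.1 ≤ β := by
      clear hξ
      induction p using Finset.induction_on with
      | empty => exact ⟨_, hc₀, by simp⟩
      | insert a s _ ih =>
        obtain ⟨β, h1, h2⟩ := ih (fun w hw => hp w (Finset.mem_insert_of_mem hw))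
        refine ⟨max β a.1, max_lt h1 (hp a (Finset.mem_insert_self _ _)), ?_⟩
        intro w hw
        rcases Finset.mem_insert.1 hw with rfl | hw
        · exact le_max_right _ _
        · exact (h2 w hw).trans (le_max_left _ _)
    obtain ⟨β, hβ1, hβ2⟩ := hβ
    exact (hG β p hβ2).trans (hcl β hβ1)
  refine ⟨c₀, fun c hc B hB => ?_⟩
  obtain ⟨s, hs⟩ : ∃ s : ℕ → (ℕ → Bool), B ⊆ Set.range s := by
    rcases B.eq_empty_or_nonempty with rfl | hne
    · exact ⟨fun _ _ => true, Set.empty_subset _⟩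
    · obtain ⟨s, hs⟩ := hB.exists_eq_range hne
      exact ⟨s, hs.subset⟩
  have hj : ∀ p : Finset (W × Bool), ∃ j, (∀ w ∈ p, w.1 < c₀) → e c j = ξ p := by
    intro p
    by_cases h : ∀ w ∈ p, w.1 < c₀
    · obtain ⟨j, hj⟩ := hE c (ξ p) ((hξlt p h).le.trans hc)
      exact ⟨j, fun _ => hj⟩
    · exact ⟨0, fun h' => absurd h' h⟩
  choose jj hjj using hj
  let P : ℕ → Finset (W × Bool) := fun n =>
    Nat.rec ∅ (fun n p => insert (ξ p, !(s n (jj p))) p) n
  have hP0 : P 0 = ∅ := rfl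
  have hPs : ∀ n, P (n + 1) = insert (ξ (P n), !(s n (jj (P n)))) (P n) := fun n => rfl
  have hPlt : ∀ n, ∀ w ∈ P n, w.1 < c₀ := by
    intro n
    induction n with
    | zero => simp [hP0]
    | succ n ih =>
      intro w hw
      rw [hPs] at hw
      rcases Finset.mem_insert.1 hw with rfl | hw
      · exact hξlt _ ih
      · exact ih w hw
  have hPinf : ∀ n, (cell x z (P n)).Infinite := by
    intro n
    induction n with
    | zero =>
      rw [hP0]
      refine hz.mono fun κ hκ => ⟨hκ, by simp⟩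
    | succ n ih =>
      rw [hPs]
      exact cell_insert (hξ _ ih).1 (hξ _ ih).2 _
  have hPmono : ∀ m n, m ≤ n → P m ⊆ P n := by
    intro m n hmn
    induction n, hmn using Nat.le_induction with
    | base => exact Finset.Subset.refl _
    | succ n _ ih =>
      rw [hPs]
      exact ih.trans (Finset.subset_insert _ _)
  have hκ : ∀ n, ∃ κ ∈ cell x z (P n), n < κ := fun n => (hPinf n).exists_gt n
  choose κ hκ1 hκ2 using hκ
  let 𝒰 : Ultrafilter ℕ := hyperfilter ℕ
  have hcof : ∀ m, ∀ᶠ n in (𝒰 : Filter ℕ), m ≤ n := by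
    intro m
    have : ∀ᶠ n in (cofinite : Filter ℕ), m ≤ n := by
      rw [Nat.cofinite_eq_atTop]
      exact eventually_ge_atTop m
    exact Filter.hyperfilter_le_cofinite this
  let t : ℕ → Bool := fun j => decide (∀ᶠ n in (𝒰 : Filter ℕ), κ n ∈ x (e c j))
  have ht : ∀ j, ∀ᶠ n in (𝒰 : Filter ℕ), (κ n ∈ x (e c j) ↔ t j = true) := by
    intro j
    by_cases h : ∀ᶠ n in (𝒰 : Filter ℕ), κ n ∈ x (e c j)
    · have h1 : t j = true := decide_eq_true h
      filter_upwards [h] with n hn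
      simp [hn, h1]
    · have h1 : t j = false := decide_eq_false h
      have h2 : ∀ᶠ n in (𝒰 : Filter ℕ), ¬ κ n ∈ x (e c j) := Ultrafilter.eventually_not.2 h
      filter_upwards [h2] with n hn
      simp [hn, h1]
  refine ⟨t, ?_, ?_⟩
  · intro n hfin
    have h1 : ∀ᶠ m in (𝒰 : Filter ℕ), ∀ j < n, (κ m ∈ x (e c j) ↔ t j = true) := by
      have := (Filter.eventually_all_finset (l := (𝒰 : Filter ℕ)) (Finset.range n)
        (p := fun j m => (κ m ∈ x (e c j) ↔ t j = true))).2 (fun j _ => ht j)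
      filter_upwards [this] with m hm j hj
      exact hm j (Finset.mem_range.2 hj)
    obtain ⟨b, hb⟩ := hfin.bddAbove
    obtain ⟨m, hm1, hm2⟩ := (h1.and (hcof b)).exists
    have h3 : κ m ≤ b := hb ⟨(hκ1 m).1, hm1⟩
    exact absurd (hκ2 m) (by omega)
  · intro htB
    obtain ⟨n, hn⟩ := hs htB
    obtain ⟨m, hm1, hm2⟩ := ((ht (jj (P n))).and (hcof (n + 1))).exists
    have h1 : (ξ (P n), !(s n (jj (P n)))) ∈ P m :=
      hPmono _ _ hm2 (by rw [hPs]; exact Finset.mem_insert_self _ _)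
    have h2 := (hκ1 m).2 _ h1
    rw [hjj (P n) (hPlt n)] at hm1
    simp only at h2
    rw [h2, ← hn] at hm1
    cases hv : s n (jj (P n)) <;> simp [hv] at hm1

end Pool.Agent.Helper32.MH.GEN
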